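import Pool.Agent.Lib.MP_1e8db4_co.Defs
import Pool.Agent.Lib.MP_1e8db4_co.Final

/-!
If `k` is a positive integer which is not a sum of two squares, then there is no regular rep-cube
of order `k`.
-/

set_option autoImplicit false

namespace Pool.Agent.Results.MP_1e8db4_co.NoRegularRepCube

open Pool.Agent.Lib.MP_1e8db4_co

/-- If `k` is a positive integer that is not a sum of two squares, then there is no regular
rep-cube of order `k`. -/
theorem result : ∀ k : ℕ, 0 < k → (¬ ∃ a b : ℕ, k = a ^ 2 + b ^ 2) →
    ¬ ∃ S : Finset (ℤ × ℤ), IsRegularRepCube k S := by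
  rintro k hk hno ⟨S, hS⟩
  exact hno (order_sum_two_squares hk hS)

end Pool.Agent.Results.MP_1e8db4_co.NoRegularRepCube
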